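import Mathlib

set_option autoImplicit false

namespace Pool.Agent.Results.MP_cc4673_an.ProductAtom

/-- `h` has the L-property on the sequence `z`: every compact subset of the range of `h` contains
`h (z k)` for only finitely many `k`. -/
def LProp {n : ℕ} (h : EuclideanSpace ℂ (Fin n) → ℂ) (z : ℕ → EuclideanSpace ℂ (Fin n)) : Prop :=
  ∀ K : Set ℂ, IsCompact K → K ⊆ Set.range h → {k : ℕ | h (z k) ∈ K}.Finite

/-- `(f, g)` is an ordered L-pair. -/
def LPair {n : ℕ} (f g : EuclideanSpace ℂ (Fin n) → ℂ) : Prop :=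
  ∀ z : ℕ → EuclideanSpace ℂ (Fin n),
    Filter.Tendsto (fun k => ‖z k‖) Filter.atTop Filter.atTop → LProp f z → LProp g z

/-- `a` is an L-atom. -/
def LAtom {n : ℕ} (a : EuclideanSpace ℂ (Fin n) → ℂ) : Prop :=
  Differentiable ℂ a ∧ (∃ z w, a z ≠ a w) ∧
    ∀ f : EuclideanSpace ℂ (Fin n) → ℂ, Differentiable ℂ f → LPair f a →
      ∃ φ : ℂ → ℂ, DifferentiableOn ℂ φ (Set.range a) ∧ ∀ z, f z = φ (a z)

theorem bdd {n : ℕ} {f a : EuclideanSpace ℂ (Fin n) → ℂ} (hf : Continuous f) (h : LPair f a)
    (c : ℂ) : ∃ M : ℝ, ∀ z, a z = c → ‖f z‖ ≤ M := by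
  by_contra hn
  push Not at hn
  choose z hz1 hz2 using fun k : ℕ => hn k
  have h1 : Filter.Tendsto (fun k => ‖f (z k)‖) Filter.atTop Filter.atTop :=
    Filter.tendsto_atTop_mono (fun k => (hz2 k).le) tendsto_natCast_atTop_atTop
  have h2 : Filter.Tendsto (fun k => ‖z k‖) Filter.atTop Filter.atTop := by
    rw [Filter.tendsto_atTop]
    intro R
    obtain ⟨M, hM⟩ := (isCompact_closedBall (0 : EuclideanSpace ℂ (Fin n)) R).exists_bound_of_continuousOn
      hf.continuousOn
    filter_upwards [h1.eventually_gt_atTop M] with k hk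
    by_contra hlt
    exact absurd (hM _ (mem_closedBall_zero_iff.2 (not_le.1 hlt).le)) (not_le.2 hk)
  have h3 : LProp f z := by
    intro K hK _
    obtain ⟨M, hM⟩ := hK.isBounded.exists_norm_le
    obtain ⟨N, hN⟩ := Filter.eventually_atTop.1 (h1.eventually_gt_atTop M)
    refine (Set.finite_lt_nat N).subset fun k hk => ?_
    by_contra hlt
    exact absurd (hM _ hk) (not_le.2 (hN k (not_lt.1 hlt)))
  have h4 := h z h2 h3 {c} isCompact_singleton (by
    rintro _ rfl
    exact ⟨z 0, hz1 0⟩)
  exact Set.infinite_univ (h4.subset fun k _ => hz1 k)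

theorem const {n : ℕ} {f a : EuclideanSpace ℂ (Fin n) → ℂ} (hf : Differentiable ℂ f)
    (h : LPair f a) (c : ℂ) (γ : ℂ → Fin n → ℂ) (hγ : ∀ i, Differentiable ℂ fun t => γ t i)
    (hc : ∀ t, a (WithLp.toLp 2 (γ t)) = c) (s t : ℂ) :
    f (WithLp.toLp 2 (γ s)) = f (WithLp.toLp 2 (γ t)) := by
  obtain ⟨M, hM⟩ := bdd hf.continuous h c
  have hd : Differentiable ℂ fun t => (WithLp.toLp 2 (γ t) : EuclideanSpace ℂ (Fin n)) :=
    differentiable_euclidean.2 hγ
  refine Differentiable.apply_eq_apply_of_bounded (hf.comp hd) ?_ s t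
  refine isBounded_iff_forall_norm_le.2 ⟨M, ?_⟩
  rintro _ ⟨t, rfl⟩
  exact hM _ (hc t)

/-- the point `(x, y, 0, …, 0)` -/
def pt (m : ℕ) (x y : ℂ) : Fin (m + 2) → ℂ := fun i => if i = 0 then x else if i = 1 then y else 0

theorem atom (m : ℕ) : LAtom (fun z : EuclideanSpace ℂ (Fin (m + 2)) => z 0 * z 1) := by
  have hp : ∀ (x y : ℂ → ℂ), Differentiable ℂ x → Differentiable ℂ y →
      ∀ i, Differentiable ℂ fun t => pt m (x t) (y t) i := by
    intro x y hx hy i
    unfold pt
    split_ifs
    · exact hx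
    · exact hy
    · exact differentiable_const _
  refine ⟨by fun_prop, ⟨WithLp.toLp 2 fun _ => 0, WithLp.toLp 2 fun _ => 1, by simp⟩,
    fun f hf h => ⟨fun c => f (WithLp.toLp 2 (pt m 1 c)), ?_, fun z => ?_⟩⟩
  · exact (hf.comp (differentiable_euclidean.2
      (hp _ _ (differentiable_const _) differentiable_id))).differentiableOn
  have h1 : f z = f (WithLp.toLp 2 (pt m (z 0) (z 1))) := by
    have := const hf h (z 0 * z 1)
      (fun t i => if i = 0 then z 0 else if i = 1 then z 1 else t * z i)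
      (fun i => by split_ifs <;> fun_prop) (fun t => by simp) 1 0
    convert this using 2
    · ext i
      simp only
      split_ifs with h0 h1
      · rw [h0]
      · rw [h1]
      · rw [one_mul]
    · ext i
      simp [pt]
  rw [h1]
  by_cases h0 : z 0 = 0
  · have h2 := const hf h 0 (fun t => pt m 0 t)
      (hp _ _ (differentiable_const _) differentiable_id) (fun t => by simp [pt]) (z 1) 0
    have h3 := const hf h 0 (fun t => pt m t 0)
      (hp _ _ differentiable_id (differentiable_const _)) (fun t => by simp [pt]) 0 1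
    simp only [h0, zero_mul]
    exact h2.trans h3
  · have h2 := const hf h (z 0 * z 1)
      (fun t => pt m (Complex.exp t) (z 0 * z 1 * Complex.exp (-t)))
      (hp _ _ (by fun_prop) (by fun_prop))
      (fun t => by
        simp only [pt, if_true, Fin.one_eq_zero_iff, Complex.exp_neg]
        have := Complex.exp_ne_zero t
        simp
        field_simp) (Complex.log (z 0)) 0
    simp only [Complex.exp_neg, Complex.exp_log h0, Complex.exp_zero, inv_one, mul_one] at h2
    have h3 : z 0 * z 1 * (z 0)⁻¹ = z 1 := by field_simp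
    rw [h3] at h2
    exact h2

theorem result :
    (∀ m : ℕ, LAtom (fun z : EuclideanSpace ℂ (Fin (m + 2)) => z 0 * z 1)) ∧
    (¬ ∃ F : EuclideanSpace ℂ (Fin 2) → EuclideanSpace ℂ (Fin 2),
      Differentiable ℂ F ∧ Function.Injective F ∧ ∀ z, F z 0 = z 0 * z 1) ∧
    (∀ m : ℕ, ¬ ∃ F : EuclideanSpace ℂ (Fin (m + 2)) ≃ EuclideanSpace ℂ (Fin (m + 2)),
      Differentiable ℂ F ∧ Differentiable ℂ F.symm ∧ ∀ z, F z 0 = z 0 * z 1) := by
  refine ⟨atom, ?_, fun m => ?_⟩
  · rintro ⟨F, hF, hi, h0⟩
    have hF1 : Differentiable ℂ fun z => F z 1 := differentiable_euclidean.1 hF 1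
    let u : ℂ → ℂ := fun t => F !₂[t, 0] 1
    let v : ℂ → ℂ := fun t => F !₂[0, t] 1
    have hu : Differentiable ℂ u := hF1.comp (differentiable_euclidean.2 fun i => by
      fin_cases i <;> simp <;> fun_prop)
    have hv : Differentiable ℂ v := hF1.comp (differentiable_euclidean.2 fun i => by
      fin_cases i <;> simp <;> fun_prop)
    have key : ∀ a b : EuclideanSpace ℂ (Fin 2), a 0 * a 1 = b 0 * b 1 → F a 1 = F b 1 → a = b := by
      intro a b h1 h2
      apply hi
      ext i
      fin_cases i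
      · exact (h0 a).trans (h1.trans (h0 b).symm)
      · exact h2
    have hopen : IsOpen (Set.range u) := by
      rcases (hu.differentiableOn.analyticOnNhd isOpen_univ).is_constant_or_isOpen
        isPreconnected_univ with ⟨w, hw⟩ | h
      · have := key !₂[0, 0] !₂[1, 0] (by simp) ((hw 0 trivial).trans (hw 1 trivial).symm)
        have h2 := congrArg (fun z => z 0) this
        simp at h2
      · simpa using h Set.univ le_rfl isOpen_univ
    have h1 : v ⁻¹' Set.range u ∈ nhds (0 : ℂ) :=
      (hopen.preimage hv.continuous).mem_nhds ⟨0, rfl⟩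
    have h3 : v ⁻¹' Set.range u ∩ {0}ᶜ ∈ nhdsWithin (0 : ℂ) {0}ᶜ :=
      Filter.inter_mem (mem_nhdsWithin_of_mem_nhds h1) self_mem_nhdsWithin
    obtain ⟨t, ⟨s, hs⟩, ht⟩ := Filter.nonempty_of_mem h3
    have := key !₂[s, 0] !₂[0, t] (by simp) hs
    have h2 := congrArg (fun z => z 1) this
    simp at h2
    exact ht h2.symm
  · rintro ⟨F, hF, hG, h0⟩
    let g : ℂ → EuclideanSpace ℂ (Fin (m + 2)) := fun t => F.symm (EuclideanSpace.single 0 t + F 0)
    have hg : Differentiable ℂ g := hG.comp (Differentiable.add_const _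
      (differentiable_euclidean.2 fun i => by
        simp only [PiLp.single_apply]
        split_ifs <;> fun_prop))
    have hg0 : g 0 = 0 := by
      have : (EuclideanSpace.single 0 0 : EuclideanSpace ℂ (Fin (m + 2))) = 0 := by
        ext i
        simp
      simp only [g, this, zero_add, Equiv.symm_apply_apply]
    have h1 : ∀ t, g t 0 * g t 1 = t := fun t => by
      rw [← h0]
      simp [g, h0]
    have ha := (differentiable_euclidean.1 hg 0 0).hasDerivAt
    have hb := (differentiable_euclidean.1 hg 1 0).hasDerivAt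
    have h2 := ha.mul hb
    have h3 : ((fun t => g t 0) * fun t => g t 1) = id := funext h1
    rw [h3] at h2
    have h4 := h2.unique (hasDerivAt_id 0)
    simp [hg0] at h4

end Pool.Agent.Results.MP_cc4673_an.ProductAtom
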